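import Mathlib
import Pool.Agent.Results.MP_35dab7_an.NonuniquenessHarmonic

set_option autoImplicit false

/-!
# Non-uniqueness of harmonic maps of the disk with every prescribed value of the dilatation at `0`

The map `w ↦ α w + β conj w + d` with `|β| < |α|` carries solutions with dilatation `ω` to harmonic
mappings with dilatation `(conj α · ω + conj β) / (α + β ω)`. So a pair of different solutions with
dilatation `ω` gives pairs of different solutions whose common dilatation has any prescribed value at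
the origin; the value `0` is the classical normalisation `f_z̄(0) = 0`.

`Disk`, `dz`, `dzbar`, `IsSolution` and `Slit` are defined in
`Pool/Agent/Results/MP_35dab7_an/NonuniquenessHarmonic.lean`.
-/

namespace Pool.Agent.Results.MP_35dab7_an.EveryInitialDilatation

open Complex Set Topology Filter InnerProductSpace
open scoped ComplexConjugate
open Pool.Agent.Results.MP_35dab7_an.NonuniquenessHarmonic
  (Disk dz dzbar IsSolution Slit)

/-- The real linear map `w ↦ α w + β conj w`. -/
noncomputable def lin (α β : ℂ) : ℂ →L[ℝ] ℂ :=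
  ContinuousLinearMap.mul ℝ ℂ α +
    (ContinuousLinearMap.mul ℝ ℂ β).comp (conjCLE : ℂ ≃L[ℝ] ℂ).toContinuousLinearMap

theorem lin_apply (α β w : ℂ) : lin α β w = α * w + β * conj w := by
  simp [lin]

theorem det_pos {α β : ℂ} (h : ‖β‖ < ‖α‖) : 0 < normSq α - normSq β := by
  rw [Complex.normSq_eq_norm_sq, Complex.normSq_eq_norm_sq]
  have := norm_nonneg β
  nlinarith

/-- The real affine bijection `w ↦ α w + β conj w + d`. -/
noncomputable def aff (α β d : ℂ) (h : ‖β‖ < ‖α‖) : ℂ ≃ₜ ℂ where
  toFun w := α * w + β * conj w + d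
  invFun v := (conj α * (v - d) - β * conj (v - d)) / ((normSq α - normSq β : ℝ) : ℂ)
  left_inv w := by
    have h1 : ((normSq α - normSq β : ℝ) : ℂ) ≠ 0 := by exact_mod_cast (det_pos h).ne'
    have h2 : ((normSq α - normSq β : ℝ) : ℂ) = α * conj α - β * conj β := by
      push_cast
      rw [Complex.mul_conj, Complex.mul_conj]
    simp only
    rw [div_eq_iff h1, h2]
    simp only [add_sub_cancel_right, map_add, map_mul, Complex.conj_conj]
    ring
  right_inv v := by
    have h1 : ((normSq α - normSq β : ℝ) : ℂ) ≠ 0 := by exact_mod_cast (det_pos h).ne'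
    have h2 : ((normSq α - normSq β : ℝ) : ℂ) = α * conj α - β * conj β := by
      push_cast
      rw [Complex.mul_conj, Complex.mul_conj]
    simp only
    rw [map_div₀, Complex.conj_ofReal]
    simp only [map_sub, map_mul, Complex.conj_conj]
    rw [← sub_eq_zero]
    have : α * ((conj α * (v - d) - β * (conj v - conj d)) / ((normSq α - normSq β : ℝ) : ℂ)) +
        β * ((α * (conj v - conj d) - conj β * (v - d)) / ((normSq α - normSq β : ℝ) : ℂ)) =
        v - d := by
      rw [mul_div_assoc', mul_div_assoc', ← add_div, div_eq_iff h1, h2]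
      ring
    rw [this]
    ring
  continuous_toFun := by fun_prop
  continuous_invFun := by fun_prop

theorem aff_apply {α β d : ℂ} (h : ‖β‖ < ‖α‖) (w : ℂ) : aff α β d h w = lin α β w + d := by
  rw [lin_apply]
  rfl

theorem norm_lt {α β s : ℂ} (h : ‖β‖ < ‖α‖) (hs : ‖s‖ < 1) :
    ‖conj α * s + conj β‖ < ‖α + β * s‖ := by
  have h1 : normSq (α + β * s) - normSq (conj α * s + conj β) =
      (normSq α - normSq β) * (1 - normSq s) := by
    simp only [Complex.normSq_apply, Complex.add_re, Complex.add_im, Complex.mul_re,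
      Complex.mul_im, Complex.conj_re, Complex.conj_im]
    ring
  have h2 := det_pos h
  have h3 : 0 < 1 - normSq s := by
    rw [Complex.normSq_eq_norm_sq]
    nlinarith [norm_nonneg s]
  have h4 : 0 < normSq (α + β * s) - normSq (conj α * s + conj β) := by
    rw [h1]; exact mul_pos h2 h3
  rw [Complex.normSq_eq_norm_sq, Complex.normSq_eq_norm_sq] at h4
  exact lt_of_pow_lt_pow_left₀ 2 (norm_nonneg _) (by linarith)

/-- **Transformation principle.** A real affine map turns solutions into solutions. -/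
theorem transform {α β d : ℂ} (h : ‖β‖ < ‖α‖) {Ω : Set ℂ} {ω : ℂ → ℂ} {w₀ : ℂ} {f : ℂ → ℂ}
    (hω : MapsTo ω Disk Disk) (h1 : α + β * ω 0 = 1) (hf : IsSolution Ω ω w₀ f) :
    IsSolution (aff α β d h '' Ω) (fun z => (conj α * ω z + conj β) / (α + β * ω z))
      (aff α β d h w₀) (fun z => aff α β d h (f z)) := by
  have hfun : (fun z => aff α β d h (f z)) = fun z => lin α β (f z) + d :=
    funext fun z => aff_apply h _
  have hωn : ∀ z ∈ Disk, ‖ω z‖ < 1 := fun z hz => mem_ball_zero_iff.1 (hω hz)
  have m0 : (0 : ℂ) ∈ Disk := Metric.mem_ball_self one_pos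
  have hD : ∀ z ∈ Disk, fderiv ℝ (fun z => aff α β d h (f z)) z =
      (lin α β).comp (fderiv ℝ f z) := by
    intro z hz
    rw [hfun]
    have hdf : DifferentiableAt ℝ f z := (hf.harmonic z hz).1.differentiableAt (by norm_num)
    exact (((lin α β).hasFDerivAt.comp z hdf.hasFDerivAt).add_const d).fderiv
  have e1 : ∀ z ∈ Disk, dz (fun z => aff α β d h (f z)) z = (α + β * ω z) * dz f z := by
    intro z hz
    have h3 := hf.dilatation z hz
    have h4 : dz (fun z => aff α β d h (f z)) z = α * dz f z + β * conj (dzbar f z) := by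
      unfold dz dzbar
      rw [hD z hz]
      simp only [ContinuousLinearMap.comp_apply, lin_apply, map_add, map_mul, map_div₀,
        Complex.conj_I, map_ofNat]
      ring
    rw [h4, h3]
    ring
  have e2 : ∀ z ∈ Disk, conj (dzbar (fun z => aff α β d h (f z)) z) =
      (conj α * ω z + conj β) * dz f z := by
    intro z hz
    have h3 := hf.dilatation z hz
    have h4 : dzbar (fun z => aff α β d h (f z)) z = α * dzbar f z + β * conj (dz f z) := by
      unfold dz dzbar
      rw [hD z hz]
      simp only [ContinuousLinearMap.comp_apply, lin_apply, map_mul, map_div₀, map_sub,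
        Complex.conj_I, map_ofNat]
      ring
    rw [h4, map_add, map_mul, map_mul, h3, Complex.conj_conj]
    ring
  have hne : ∀ z ∈ Disk, α + β * ω z ≠ 0 := by
    intro z hz h0
    have := norm_lt h (hωn z hz)
    rw [h0, norm_zero] at this
    exact absurd this (not_lt.2 (norm_nonneg _))
  refine ⟨?_, ?_, ?_, ?_, ?_, ?_, ?_⟩
  · rw [hfun]
    exact (hf.harmonic.comp_CLM (lin α β)).add (harmonicOnNhd_const d)
  · intro z hz
    have h3 : ‖dzbar (fun z => aff α β d h (f z)) z‖ =
        ‖conj α * ω z + conj β‖ * ‖dz f z‖ := by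
      rw [← norm_mul, ← e2 z hz, RCLike.norm_conj]
    rw [h3, e1 z hz, norm_mul]
    exact mul_lt_mul_of_pos_right (norm_lt h (hωn z hz))
      (lt_of_le_of_lt (norm_nonneg _) (hf.sense z hz))
  · intro z hz
    rw [e2 z hz, e1 z hz, ← mul_assoc, div_mul_cancel₀ _ (hne z hz)]
  · intro z hz z' hz' he
    exact hf.injOn hz hz' ((aff α β d h).injective he)
  · rw [← hf.image, image_image]
  · simp only [hf.base]
  · rw [e1 0 m0, h1, one_mul]
    exact hf.pos

/-- **Uniqueness fails for every prescribed value of the dilatation at the origin.** For every `c`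
with `|c| < 1` and every point `w₁` there are a domain `Ω ∋ w₁`, the image of the plane minus two
parallel half-lines under a real affine bijection, an analytic function `ω` from the unit disk to
itself with `ω 0 = c` and two different sense-preserving harmonic mappings of the unit disk onto `Ω`
with dilatation `ω`, both with `f 0 = w₁` and `f_z(0) > 0`. For `c = 0` they satisfy the full
normalisation `f 0 = w₁`, `f_z(0) > 0`, `f_z̄(0) = 0`. -/
theorem result (c : ℂ) (hc : ‖c‖ < 1) (w₁ : ℂ) :
    ∃ (Ω : Set ℂ) (ω f₁ f₂ : ℂ → ℂ),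
      (∃ (a b : ℝ) (α β d : ℂ), ‖β‖ < ‖α‖ ∧
        Ω = (fun w => α * w + β * conj w + d) '' Slit a b) ∧
      IsOpen Ω ∧ SimplyConnectedSpace Ω ∧ Ω ≠ univ ∧ w₁ ∈ Ω ∧
      DifferentiableOn ℂ ω Disk ∧ MapsTo ω Disk Disk ∧ ω 0 = c ∧
      IsSolution Ω ω w₁ f₁ ∧ IsSolution Ω ω w₁ f₂ ∧
      (c = 0 → dzbar f₁ 0 = 0 ∧ dzbar f₂ 0 = 0) ∧
      ∃ z ∈ Disk, f₁ z ≠ f₂ z := by
  obtain ⟨a, b, w₀, ω, f₁, f₂, h1, h2, h3, h4, h5, h6, h7, h8, z, hz, h9⟩ :=
    NonuniquenessHarmonic.result
  have m0 : (0 : ℂ) ∈ Disk := Metric.mem_ball_self one_pos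
  set a₀ := ω 0 with ha₀
  have hn0 : ‖a₀‖ < 1 := mem_ball_zero_iff.1 (h6 m0)
  have hN : 0 < 1 - normSq a₀ := by
    rw [Complex.normSq_eq_norm_sq]
    nlinarith [norm_nonneg a₀]
  have hNc : ((1 - normSq a₀ : ℝ) : ℂ) ≠ 0 := by exact_mod_cast hN.ne'
  have hNe : ((1 - normSq a₀ : ℝ) : ℂ) = 1 - a₀ * conj a₀ := by
    push_cast
    rw [Complex.mul_conj]
  set α : ℂ := (1 - a₀ * conj c) / ((1 - normSq a₀ : ℝ) : ℂ) with hα
  set β : ℂ := (conj c - conj a₀) / ((1 - normSq a₀ : ℝ) : ℂ) with hβ
  have hab : ‖β‖ < ‖α‖ := by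
    rw [hα, hβ, norm_div, norm_div]
    apply div_lt_div_of_pos_right _ (norm_pos_iff.2 hNc)
    have e : normSq (1 - a₀ * conj c) - normSq (conj c - conj a₀) =
        (1 - normSq a₀) * (1 - normSq c) := by
      simp only [Complex.normSq_apply, Complex.sub_re, Complex.sub_im, Complex.mul_re,
        Complex.mul_im, Complex.conj_re, Complex.conj_im, Complex.one_re, Complex.one_im]
      ring
    have hC : 0 < 1 - normSq c := by
      rw [Complex.normSq_eq_norm_sq]
      nlinarith [norm_nonneg c]
    have e2 : 0 < normSq (1 - a₀ * conj c) - normSq (conj c - conj a₀) := by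
      rw [e]; exact mul_pos hN hC
    rw [Complex.normSq_eq_norm_sq, Complex.normSq_eq_norm_sq] at e2
    exact lt_of_pow_lt_pow_left₀ 2 (norm_nonneg _) (by linarith)
  have hone : α + β * ω 0 = 1 := by
    rw [← ha₀, hα, hβ, div_mul_eq_mul_div, ← add_div, div_eq_one_iff_eq hNc, hNe]
    ring
  have hval : conj α * ω 0 + conj β = c := by
    rw [← ha₀, hα, hβ, map_div₀, map_div₀, Complex.conj_ofReal, div_mul_eq_mul_div, ← add_div,
      div_eq_iff hNc, hNe]
    simp only [map_sub, map_one, map_mul, Complex.conj_conj]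
    ring
  set d : ℂ := w₁ - (α * w₀ + β * conj w₀) with hd
  have hw : aff α β d hab w₀ = w₁ := by
    rw [aff_apply, lin_apply, hd]
    ring
  have s1 := transform (d := d) hab h6 hone h7
  have s2 := transform (d := d) hab h6 hone h8
  rw [hw] at s1 s2
  have hωn : ∀ z ∈ Disk, ‖ω z‖ < 1 := fun z hz => mem_ball_zero_iff.1 (h6 hz)
  have hne : ∀ z ∈ Disk, α + β * ω z ≠ 0 := by
    intro z hz h0
    have := norm_lt hab (hωn z hz)
    rw [h0, norm_zero] at this
    exact absurd this (not_lt.2 (norm_nonneg _))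
  have hω0 : (fun z => (conj α * ω z + conj β) / (α + β * ω z)) 0 = c := by
    simp only
    rw [hone, hval, div_one]
  have hzero : ∀ {f : ℂ → ℂ}, IsSolution (aff α β d hab '' Slit a b)
      (fun z => (conj α * ω z + conj β) / (α + β * ω z)) w₁ f → c = 0 → dzbar f 0 = 0 := by
    intro f hf hc0
    have := hf.dilatation 0 m0
    rw [hone, hval, hc0, zero_div, zero_mul] at this
    exact (map_eq_zero _).1 this
  have := h2
  refine ⟨aff α β d hab '' Slit a b, _, _, _, ⟨a, b, α, β, d, hab, rfl⟩,
    (aff α β d hab).isOpen_image.2 h1, ?_, ?_, ?_, ?_, ?_, hω0, s1, s2,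
    fun hc0 => ⟨hzero s1 hc0, hzero s2 hc0⟩, z, hz, fun he => h9 ((aff α β d hab).injective he)⟩
  · exact ((aff α β d hab).image (Slit a b)).symm.toHomotopyEquiv.simplyConnectedSpace
  · intro hu
    apply h3
    have := congrArg (fun S => (aff α β d hab) ⁻¹' S) hu
    simp only [preimage_univ] at this
    rwa [preimage_image_eq _ (aff α β d hab).injective] at this
  · exact ⟨w₀, h4, hw⟩
  · exact (((h5.const_mul _).add_const _).div ((h5.const_mul _).const_add _) hne)
  · intro z hz
    apply mem_ball_zero_iff.2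
    rw [norm_div, div_lt_one (norm_pos_iff.2 (hne z hz))]
    exact norm_lt hab (hωn z hz)

end Pool.Agent.Results.MP_35dab7_an.EveryInitialDilatation
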